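import Pool.Agent.Lib.MP_abd978_an.H50.Pnz

/-!
# Project ABD: PNC
-/

set_option autoImplicit false

open MeasureTheory Metric Set Filter Topology ContDiff
open scoped Gradient RealInnerProductSpace

namespace Pool.Agent.Lib.MP_abd978_an.H50

theorem add_rpow_le {s t p : ℝ} (hs : 0 ≤ s) (ht : 0 ≤ t) (hp : 0 < p) :
    (s + t) ^ p ≤ 2 ^ p * (s ^ p + t ^ p) := by
  have h1 : s + t ≤ 2 * max s t := by
    have := le_max_left s t
    have := le_max_right s t
    linarith
  have h2 : (s + t) ^ p ≤ (2 * max s t) ^ p := Real.rpow_le_rpow (by positivity) h1 hp.le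
  rw [Real.mul_rpow (by norm_num) (le_max_of_le_left hs)] at h2
  refine h2.trans (mul_le_mul_of_nonneg_left ?_ (by positivity))
  have h3 : 0 ≤ s ^ p := by positivity
  have h4 : 0 ≤ t ^ p := by positivity
  rcases le_total s t with h | h
  · rw [max_eq_right h]
    linarith
  · rw [max_eq_left h]
    linarith

theorem exists_small {p K m : ℝ} (hp : 1 < p) (hK : 0 < K) (hm : 0 < m) :
    ∃ ε : ℝ, 0 < ε ∧ ε ≤ 1 ∧ K * ε ^ (p - 1) < m := by
  have hp1 : 0 < p - 1 := by linarith
  have h0 : 0 < (m / (2 * K)) ^ (1 / (p - 1)) := by positivity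
  refine ⟨min 1 ((m / (2 * K)) ^ (1 / (p - 1))), lt_min one_pos h0, min_le_left _ _, ?_⟩
  have h1 : (min 1 ((m / (2 * K)) ^ (1 / (p - 1)))) ^ (p - 1) ≤ m / (2 * K) := by
    calc (min 1 ((m / (2 * K)) ^ (1 / (p - 1)))) ^ (p - 1)
        ≤ ((m / (2 * K)) ^ (1 / (p - 1))) ^ (p - 1) :=
          Real.rpow_le_rpow (le_min zero_le_one h0.le) (min_le_right _ _) hp1.le
      _ = m / (2 * K) := by
          rw [← Real.rpow_mul (by positivity), one_div_mul_cancel hp1.ne', Real.rpow_one]
  calc K * (min 1 ((m / (2 * K)) ^ (1 / (p - 1)))) ^ (p - 1) ≤ K * (m / (2 * K)) :=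
        mul_le_mul_of_nonneg_left h1 hK.le
    _ = m / 2 := by field_simp
    _ < m := by linarith

theorem pnc (hC : CutStatement) (hBC : BchainStatement) (hI : IntgStatement)
    (hP : PairStatement) (hS : Sob1Statement) (hCa : CaccStatement) : PncStatement := by
  intro n p μ a α β y R _ hR hop
  have hlf := hop.lf
  have hp := hop.hp
  have hα := hop.hα
  have hβ : 0 < β := hα.trans_le hop.hαβ
  have hp1 : 0 < p - 1 := by linarith
  obtain ⟨C1, hC1, hCa⟩ := hCa n p μ a α β hop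
  obtain ⟨C2, hC2, hS⟩ := hS n p μ hop.toGeo
  obtain ⟨η, hη, hη01, hη1, hηs⟩ := annCut hC n y (s1 := R / 7) (s2 := R / 5)
    (t1 := 3 * R / 5) (t2 := 4 * R / 5) (by linarith) (by linarith) (by linarith)
    (by linarith)
  obtain ⟨Cc, hCc0, hCc⟩ := hC n
  obtain ⟨θ, hθ, hθ01, hθ1, hθs, hθg⟩ := hCc y (R / 4) (R / 2) (by linarith) (by linarith)
  have hθg0 : ∀ x, ¬(R / 5 < dist x y ∧ dist x y ≤ 3 * R / 5) → ∇ θ x = 0 := by
    intro x hx
    by_cases h1 : dist x y < R / 4
    · have h3 : (fun _ : E n => (1 : ℝ)) =ᶠ[𝓝 x] θ := by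
        filter_upwards [isOpen_ball.mem_nhds (mem_ball.2 h1)] with z hz
        exact (hθ1 z (ball_subset_closedBall hz)).symm
      rw [grad_eq, ← h3.fderiv_eq]
      simp
    · refine grad_eq_zero_of_notMem fun h => hx ⟨by linarith [not_lt.1 h1], ?_⟩
      have := mem_closedBall.1 (hθs h)
      linarith
  set A : ℝ := ∫ x, ‖∇ η x‖ ^ p ∂μ with hA
  set B : ℝ := ∫ x, ‖∇ θ x‖ ^ p ∂μ with hB
  have hA0 : 0 ≤ A := integral_nonneg fun x => by positivity
  have hB0 : 0 ≤ B := integral_nonneg fun x => by positivity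
  have hAi : Integrable (fun x => ‖∇ η x‖ ^ p) μ := int_rpow hp (hη.memLp_grad _)
  have hBi : Integrable (fun x => ‖∇ θ x‖ ^ p) μ := int_rpow hp (hθ.memLp_grad _)
  set m0 : ℝ := μ.real (ball y (R / 4)) with hm0
  have hm00 : 0 < m0 := hop.pos y (R / 4) (by linarith)
  set K2 : ℝ := 2 * β * (C1 * A) ^ ((p - 1) / p) * B ^ (1 / p) / α with hK2
  have hK20 : 0 ≤ K2 := by positivity
  set K : ℝ := C2 * R ^ p * (2 ^ p * (B + K2)) + 1 with hKdef
  have hK0 : 0 < K := by positivity
  obtain ⟨ε, hε, hε1, hεK⟩ := exists_small hp hK0 hm00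
  refine ⟨ε, hε, fun y' κ v c hv hK hc => ?_⟩
  by_contra hcon
  push Not at hcon
  obtain ⟨hκ, hKR, hv01, -, g, V, hg, hg01, ⟨ε', hε', hg1⟩, hH, hE⟩ := hv
  set D : Set (E n) := ball y R \ closedBall y' κ with hD
  have hDo : IsOpen D := isOpen_ball.sdiff isClosed_closedBall
  have hgu : Test univ g := hg.mono (subset_univ _)
  obtain ⟨hvL, hVL⟩ := memLp_V hgu hH
  -- the Caccioppoli estimate on the annulus
  set D' : Set (E n) := {x | R / 8 < dist x y ∧ dist x y < 7 * R / 8} with hD'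
  have hD'o : IsOpen D' := by
    refine IsOpen.inter (isOpen_lt continuous_const (continuous_id.dist continuous_const))
      (isOpen_lt (continuous_id.dist continuous_const) continuous_const)
  have hD'D : D' ⊆ D := by
    rintro x ⟨h1, h2⟩
    refine ⟨mem_ball.2 (by linarith), fun h => ?_⟩
    have := mem_ball.1 (hK h)
    linarith
  have hηD : Test D' η := by
    refine ⟨hη.1, hη.2.1, fun x hx => ?_⟩
    obtain ⟨h1, h2⟩ := hηs hx
    exact ⟨by linarith, by linarith⟩
  have hbs : BSol μ p a D' v V 0 1 := bsol hop hv01 hgu hH hE hD'o hD'D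
  have hder : ∀ t : ℝ, deriv (fun t : ℝ => t - 1 / c) t = 1 := fun t => by simp
  have hca := hCa D' v V 0 1 (fun t => t - 1 / c) η hbs ⟨univ, isOpen_univ, subset_univ _,
    (contDiff_id.sub contDiff_const).contDiffOn⟩ (fun t _ => by rw [hder]; exact one_pos) hηD hη01
  set J : ℝ := ∫ x, η x ^ ⌈p⌉₊ * ‖V x‖ ^ p ∂μ with hJ
  have hJ0 : 0 ≤ J := integral_nonneg fun x => mul_nonneg (pow_nonneg (hη01 x).1 _)
    (by positivity)
  have hJle : J ≤ C1 * A * (ε / c) ^ p := by
    have h1 : J = ∫ x, η x ^ ⌈p⌉₊ * (deriv (fun t : ℝ => t - 1 / c) (v x) * ‖V x‖ ^ p) ∂μ := by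
      refine integral_congr_ae (Eventually.of_forall fun x => ?_)
      show η x ^ ⌈p⌉₊ * ‖V x‖ ^ p =
        η x ^ ⌈p⌉₊ * (deriv (fun t : ℝ => t - 1 / c) (v x) * ‖V x‖ ^ p)
      rw [hder, one_mul]
    rw [h1]
    refine hca.trans ?_
    rw [mul_assoc]
    refine mul_le_mul_of_nonneg_left ?_ hC1.le
    rw [hA, mul_comm, ← integral_const_mul]
    refine integral_mono_of_nonneg (Eventually.of_forall fun x => ?_) (hAi.const_mul _)
      (Eventually.of_forall fun x => ?_)
    · show 0 ≤ |v x - 1 / c| ^ p * deriv (fun t : ℝ => t - 1 / c) (v x) ^ (1 - p) * ‖∇ η x‖ ^ p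
      rw [hder]
      positivity
    · show |v x - 1 / c| ^ p * deriv (fun t : ℝ => t - 1 / c) (v x) ^ (1 - p) * ‖∇ η x‖ ^ p ≤
        (ε / c) ^ p * ‖∇ η x‖ ^ p
      rw [hder, Real.one_rpow, mul_one]
      by_cases hx : x ∈ tsupport η
      · obtain ⟨h2, h3⟩ := hηs hx
        have h4 := hcon x (by linarith) (by linarith)
        have h5 : |v x - 1 / c| ≤ ε / c := by
          rw [le_div_iff₀ hc]
          calc |v x - 1 / c| * c = |v x - 1 / c| * |c| := by rw [abs_of_pos hc]
            _ = |c * v x - 1| := by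
                rw [← abs_mul]
                congr 1
                field_simp
            _ ≤ ε := h4
        exact mul_le_mul_of_nonneg_right (Real.rpow_le_rpow (abs_nonneg _) h5 (by linarith))
          (by positivity)
      · rw [grad_eq_zero_of_notMem hx, norm_zero, Real.zero_rpow (by linarith)]
        simp
  -- `χ (c v)` belongs to `H_0(D)`
  set χ : E n → ℝ := fun x => 1 - θ x with hχ
  have hχs : ContDiff ℝ ∞ χ := contDiff_const.sub hθ.1
  have hχ01 : ∀ x, χ x ∈ Icc (0 : ℝ) 1 := fun x => by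
    obtain ⟨h1, h2⟩ := hθ01 x
    exact ⟨by simp only [hχ]; linarith, by simp only [hχ]; linarith⟩
  have hχg : ∀ x, ∇ χ x = -∇ θ x := by
    intro x
    have h1 := grad_sub (f := fun _ : E n => (1 : ℝ)) (g := θ) (x := x)
      (differentiableAt_const _) (hθ.1.differentiable (by simp) x)
    have h2 : ∇ (fun _ : E n => (1 : ℝ)) x = 0 := by
      rw [grad_eq]
      simp
    rw [h2, zero_sub] at h1
    exact h1
  have hχt : tsupport χ ⊆ {x | R / 4 ≤ dist x y} := by
    refine closure_minimal (fun z hz => ?_)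
      (isClosed_le continuous_const (continuous_id.dist continuous_const))
    by_contra hzc
    have hz1 : dist z y < R / 4 := not_le.1 hzc
    exact hz (by
      show 1 - θ z = 0
      rw [hθ1 z (mem_closedBall.2 hz1.le), sub_self])
  set L : ℝ := max c (max 1 (Cc / (R / 2 - R / 4))) with hL
  have hsupp1 : tsupport (fun x => χ x * (c * g x)) ⊆ tsupport g := by
    refine closure_mono fun x hx => ?_
    intro hx0
    exact hx (by
      show χ x * (c * g x) = 0
      rw [hx0, mul_zero, mul_zero])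
  have hBCH := hBC n μ p D v V g χ (fun t => c * t) L hp hlf hDo hgu hH
    (contDiff_const.mul contDiff_id) (fun t => by
      have : deriv (fun t : ℝ => c * t) t = c := by simp
      rw [this, abs_of_pos hc]
      exact le_max_left _ _) hχs (fun x => by
      rw [abs_of_nonneg (hχ01 x).1]
      exact (hχ01 x).2.trans ((le_max_left _ _).trans (le_max_right _ _))) (fun x => by
      rw [hχg, norm_neg]
      exact (hθg x).trans ((le_max_right _ _).trans (le_max_right _ _)))
    (HasCompactSupport.of_support_subset_isCompact hg.2.1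
      ((subset_tsupport _).trans hsupp1))
    (fun x hx => by
      refine ⟨hg.2.2 (hsupp1 hx), fun hxK => ?_⟩
      have h1 : x ∈ tsupport χ := tsupport_mul_subset_left hx
      have h2 : R / 4 ≤ dist x y := hχt h1
      have h3 := mem_ball.1 (hK hxK)
      linarith)
  have hdc : ∀ t : ℝ, deriv (fun t : ℝ => c * t) t = c := fun t => by simp
  simp only [hdc] at hBCH
  have hpair := hP n p μ a α β D V _ _ hop hDo (hVL.mono_measure Measure.restrict_le_self) hE hBCH
  have hintV : Integrable (fun x => ⟪a x (V x), V x⟫) μ :=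
    (hI n p μ μ a α β V V hop hVL hVL).1
  have hintθ : Integrable (fun x => ⟪a x (V x), ∇ θ x⟫) μ :=
    (hI n p μ μ a α β V (fun x => ∇ θ x) hop hVL (hθ.memLp_grad _)).1
  have hell : ∀ x, 0 ≤ ⟪a x (V x), V x⟫ := fun x =>
    le_trans (mul_nonneg hop.hα.le (by positivity)) (hop.ell x (V x))
  have hint1 : Integrable (fun x => (c * v x) * ⟪a x (V x), ∇ θ x⟫) μ := by
    refine (hintθ.norm.const_mul c).mono' ((hvL.1.const_mul c).mul hintθ.1)
      (Eventually.of_forall fun x => ?_)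
    rw [norm_mul, norm_mul, Real.norm_of_nonneg hc.le, Real.norm_of_nonneg (hv01 x).1, mul_assoc]
    refine mul_le_mul_of_nonneg_left ?_ hc.le
    exact mul_le_of_le_one_left (norm_nonneg _) (hv01 x).2
  have hint2 : Integrable (fun x => (χ x * c) * ⟪a x (V x), V x⟫) μ := by
    refine (hintV.norm.const_mul c).mono'
      ((hχs.continuous.aestronglyMeasurable.mul_const c).mul hintV.1)
      (Eventually.of_forall fun x => ?_)
    rw [norm_mul, norm_mul, Real.norm_of_nonneg hc.le, Real.norm_of_nonneg (hχ01 x).1]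
    refine mul_le_mul_of_nonneg_right ?_ (norm_nonneg _)
    exact mul_le_of_le_one_left hc.le (hχ01 x).2
  have hsum : ∫ x, (χ x * c) * ⟪a x (V x), V x⟫ ∂μ = ∫ x, (c * v x) * ⟪a x (V x), ∇ θ x⟫ ∂μ := by
    have h1 : ∫ x, ((χ x * c) * ⟪a x (V x), V x⟫ - (c * v x) * ⟪a x (V x), ∇ θ x⟫) ∂μ = 0 := by
      rw [← hpair]
      refine integral_congr_ae (Eventually.of_forall fun x => ?_)
      show (χ x * c) * ⟪a x (V x), V x⟫ - (c * v x) * ⟪a x (V x), ∇ θ x⟫ =
        ⟪a x (V x), (c * v x) • ∇ χ x + (χ x * c) • V x⟫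
      rw [hχg, inner_add_right, inner_smul_right, inner_smul_right, inner_neg_right]
      ring
    rw [integral_sub hint2 hint1] at h1
    linarith
  -- upper bound of the right side
  set S : Set (E n) := {x | R / 5 < dist x y ∧ dist x y ≤ 3 * R / 5} with hSdef
  have hSm : MeasurableSet S :=
    ((isOpen_lt continuous_const (continuous_id.dist continuous_const)).measurableSet).inter
      (isClosed_le (continuous_id.dist continuous_const) continuous_const).measurableSet
  have hup : ∫ x, (c * v x) * ⟪a x (V x), ∇ θ x⟫ ∂μ ≤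
      2 * β * (J ^ ((p - 1) / p) * B ^ (1 / p)) := by
    have h1 : ∫ x, (c * v x) * ⟪a x (V x), ∇ θ x⟫ ∂μ =
        ∫ x in S, (c * v x) * ⟪a x (V x), ∇ θ x⟫ ∂μ := by
      refine (setIntegral_eq_integral_of_forall_compl_eq_zero fun x hx => ?_).symm
      rw [hθg0 x hx, inner_zero_right, mul_zero]
    obtain ⟨-, h2, h3, -⟩ := hI n p μ (μ.restrict S) a α β V (fun x => ∇ θ x) hop
      (hVL.mono_measure Measure.restrict_le_self) (hθ.memLp_grad _)
    have h4 : ∫ x in S, (c * v x) * ⟪a x (V x), ∇ θ x⟫ ∂μ ≤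
        ∫ x in S, 2 * β * (‖V x‖ ^ (p - 1) * ‖∇ θ x‖) ∂μ := by
      refine setIntegral_mono_on hint1.integrableOn (h2.const_mul _) hSm fun x hx => ?_
      have h5 : c * v x ≤ 2 := by
        have h6 := hcon x (by linarith [hx.1]) (by linarith [hx.2])
        have h7 := (abs_le.1 h6).2
        linarith
      have h8 : ⟪a x (V x), ∇ θ x⟫ ≤ β * ‖V x‖ ^ (p - 1) * ‖∇ θ x‖ :=
        (real_inner_le_norm _ _).trans (mul_le_mul_of_nonneg_right (hop.bdd x _) (norm_nonneg _))
      have h9 : 0 ≤ c * v x := mul_nonneg hc.le (hv01 x).1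
      have h10 : 0 ≤ β * ‖V x‖ ^ (p - 1) * ‖∇ θ x‖ := by positivity
      calc c * v x * ⟪a x (V x), ∇ θ x⟫ ≤ c * v x * (β * ‖V x‖ ^ (p - 1) * ‖∇ θ x‖) :=
            mul_le_mul_of_nonneg_left h8 h9
        _ ≤ 2 * (β * ‖V x‖ ^ (p - 1) * ‖∇ θ x‖) := mul_le_mul_of_nonneg_right h5 h10
        _ = 2 * β * (‖V x‖ ^ (p - 1) * ‖∇ θ x‖) := by ring
    rw [integral_const_mul] at h4
    rw [h1]
    refine h4.trans (mul_le_mul_of_nonneg_left (h3.trans ?_) (by positivity))
    have h5 : ∫ x in S, ‖V x‖ ^ p ∂μ ≤ J := by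
      have h6 : ∫ x in S, ‖V x‖ ^ p ∂μ = ∫ x in S, η x ^ ⌈p⌉₊ * ‖V x‖ ^ p ∂μ := by
        refine setIntegral_congr_fun hSm fun x hx => ?_
        show ‖V x‖ ^ p = η x ^ ⌈p⌉₊ * ‖V x‖ ^ p
        rw [hη1 x hx.1 hx.2, one_pow, one_mul]
      rw [h6]
      exact setIntegral_le_integral (eta_int hp hVL hη.1.continuous hη01 _)
        (Eventually.of_forall fun x => mul_nonneg (pow_nonneg (hη01 x).1 _)
          (by positivity))
    have h7 : ∫ x in S, ‖∇ θ x‖ ^ p ∂μ ≤ B :=
      setIntegral_le_integral hBi (Eventually.of_forall fun x => by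
        show 0 ≤ ‖∇ θ x‖ ^ p
        positivity)
    have h8 : 0 ≤ ∫ x in S, ‖V x‖ ^ p ∂μ := integral_nonneg fun x => by positivity
    have h9 : 0 ≤ ∫ x in S, ‖∇ θ x‖ ^ p ∂μ := integral_nonneg fun x => by positivity
    have h10 : 0 ≤ (p - 1) / p := by positivity
    exact mul_le_mul (Real.rpow_le_rpow h8 h5 h10) (Real.rpow_le_rpow h9 h7 (by positivity))
      (by positivity) (by positivity)
  have hJp : J ^ ((p - 1) / p) ≤ (C1 * A) ^ ((p - 1) / p) * (ε / c) ^ (p - 1) := by
    have h10 : 0 ≤ (p - 1) / p := by positivity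
    refine (Real.rpow_le_rpow hJ0 hJle h10).trans (le_of_eq ?_)
    rw [Real.mul_rpow (by positivity) (by positivity), ← Real.rpow_mul (by positivity)]
    congr 2
    field_simp
  -- lower bound of the left side
  set E2 : ℝ := ∫ x, χ x * (c ^ p * ‖V x‖ ^ p) ∂μ with hE2
  have hVp : Integrable (fun x => ‖V x‖ ^ p) μ := int_rpow hp hVL
  have hE2i : Integrable (fun x => χ x * (c ^ p * ‖V x‖ ^ p)) μ := by
    refine (hVp.const_mul (c ^ p)).mono'
      (hχs.continuous.aestronglyMeasurable.mul (hVp.1.const_mul _))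
      (Eventually.of_forall fun x => ?_)
    have h1 : 0 ≤ c ^ p * ‖V x‖ ^ p := by positivity
    rw [norm_mul, Real.norm_of_nonneg (hχ01 x).1, Real.norm_of_nonneg h1]
    exact mul_le_of_le_one_left h1 (hχ01 x).2
  have hcp : c ^ p = c ^ (p - 1) * c := by
    rw [← Real.rpow_add_one hc.ne']
    congr 1
    ring
  have hlow : α * E2 ≤ c ^ (p - 1) * ∫ x, (χ x * c) * ⟪a x (V x), V x⟫ ∂μ := by
    rw [hE2, ← integral_const_mul, ← integral_const_mul]
    refine integral_mono (hE2i.const_mul _) (hint2.const_mul _) fun x => ?_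
    show α * (χ x * (c ^ p * ‖V x‖ ^ p)) ≤ c ^ (p - 1) * ((χ x * c) * ⟪a x (V x), V x⟫)
    have h1 := hop.ell x (V x)
    have h2 : 0 ≤ c ^ (p - 1) * (χ x * c) :=
      mul_nonneg (by positivity) (mul_nonneg (hχ01 x).1 hc.le)
    calc α * (χ x * (c ^ p * ‖V x‖ ^ p)) = c ^ (p - 1) * (χ x * c) * (α * ‖V x‖ ^ p) := by
          rw [hcp]
          ring
      _ ≤ c ^ (p - 1) * (χ x * c) * ⟪a x (V x), V x⟫ := mul_le_mul_of_nonneg_left h1 h2
      _ = c ^ (p - 1) * ((χ x * c) * ⟪a x (V x), V x⟫) := by ring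
  have hE2le : E2 ≤ K2 * ε ^ (p - 1) := by
    have h1 : α * E2 ≤ 2 * β * (C1 * A) ^ ((p - 1) / p) * B ^ (1 / p) * ε ^ (p - 1) := by
      refine hlow.trans ?_
      rw [hsum]
      have h2 : c ^ (p - 1) * ∫ x, (c * v x) * ⟪a x (V x), ∇ θ x⟫ ∂μ ≤
          c ^ (p - 1) * (2 * β * (((C1 * A) ^ ((p - 1) / p) * (ε / c) ^ (p - 1)) *
            B ^ (1 / p))) := by
        refine mul_le_mul_of_nonneg_left (hup.trans ?_) (by positivity)
        refine mul_le_mul_of_nonneg_left ?_ (by positivity)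
        exact mul_le_mul_of_nonneg_right hJp (by positivity)
      refine h2.trans (le_of_eq ?_)
      have h3 : c ^ (p - 1) * (ε / c) ^ (p - 1) = ε ^ (p - 1) := by
        rw [← Real.mul_rpow hc.le (by positivity)]
        congr 1
        field_simp
      calc c ^ (p - 1) * (2 * β * (((C1 * A) ^ ((p - 1) / p) * (ε / c) ^ (p - 1)) *
            B ^ (1 / p))) = 2 * β * (C1 * A) ^ ((p - 1) / p) * B ^ (1 / p) *
              (c ^ (p - 1) * (ε / c) ^ (p - 1)) := by ring
        _ = _ := by rw [h3]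
    rw [hK2, div_mul_eq_mul_div, le_div_iff₀ hα]
    linarith
  -- the function `χ c v + θ`
  have hθR : Test (ball y R) θ := ⟨hθ.1, hθ.2.1, fun x hx => mem_ball.2
    ((mem_closedBall.1 (hθs hx)).trans_lt (by linarith))⟩
  have hZ := H0.add hp (hBCH.mono sdiff_subset) (hθR.h0 (μ := μ) (p := p))
  have hfin := hS y R _ _ hR hZ
  -- lower bound
  have hl : m0 ≤ ∫ x, |χ x * (c * v x) + θ x| ^ p ∂μ := by
    have h1 : ∫ x in ball y (R / 4), |χ x * (c * v x) + θ x| ^ p ∂μ = m0 := by
      have h2 : ∫ x in ball y (R / 4), |χ x * (c * v x) + θ x| ^ p ∂μ =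
          ∫ x in ball y (R / 4), (1 : ℝ) ∂μ := by
        refine setIntegral_congr_fun measurableSet_ball fun x hx => ?_
        show |χ x * (c * v x) + θ x| ^ p = 1
        have h3 : θ x = 1 := hθ1 x (ball_subset_closedBall hx)
        have h4 : χ x = 0 := by
          show 1 - θ x = 0
          rw [h3, sub_self]
        rw [h3, h4, zero_mul, zero_add, abs_one, Real.one_rpow]
      rw [h2, setIntegral_const, smul_eq_mul, mul_one]
    rw [← h1]
    exact setIntegral_le_integral (int_rpow hp hZ.1)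
      (Eventually.of_forall fun x => by
        show 0 ≤ |χ x * (c * v x) + θ x| ^ p
        positivity)
  -- upper bound
  have hu : ∫ x, ‖(c * v x) • ∇ χ x + (χ x * c) • V x + ∇ θ x‖ ^ p ∂μ ≤
      2 ^ p * (ε ^ p * B + E2) := by
    have h1 : 2 ^ p * (ε ^ p * B + E2) =
        ∫ x, 2 ^ p * (ε ^ p * ‖∇ θ x‖ ^ p + χ x * (c ^ p * ‖V x‖ ^ p)) ∂μ := by
      rw [integral_const_mul, integral_add (hBi.const_mul _) hE2i, integral_const_mul]
    rw [h1]
    refine integral_mono_of_nonneg (Eventually.of_forall fun x => by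
        show 0 ≤ ‖(c * v x) • ∇ χ x + (χ x * c) • V x + ∇ θ x‖ ^ p
        positivity) (((hBi.const_mul _).add hE2i).const_mul _)
      (Eventually.of_forall fun x => ?_)
    show ‖(c * v x) • ∇ χ x + (χ x * c) • V x + ∇ θ x‖ ^ p ≤
      2 ^ p * (ε ^ p * ‖∇ θ x‖ ^ p + χ x * (c ^ p * ‖V x‖ ^ p))
    have h2 : ‖(c * v x) • ∇ χ x + (χ x * c) • V x + ∇ θ x‖ ≤
        ε * ‖∇ θ x‖ + χ x * (c * ‖V x‖) := by
      have h3 : (c * v x) • ∇ χ x + (χ x * c) • V x + ∇ θ x =
          (1 - c * v x) • ∇ θ x + (χ x * c) • V x := by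
        rw [hχg]
        module
      rw [h3]
      refine (norm_add_le _ _).trans (add_le_add ?_ (le_of_eq ?_))
      · rw [norm_smul]
        by_cases hx : R / 5 < dist x y ∧ dist x y ≤ 3 * R / 5
        · have h4 := hcon x (by linarith [hx.1]) (by linarith [hx.2])
          rw [Real.norm_eq_abs, abs_sub_comm]
          exact mul_le_mul_of_nonneg_right h4 (norm_nonneg _)
        · rw [hθg0 x hx, norm_zero, mul_zero, mul_zero]
      · rw [norm_smul, Real.norm_of_nonneg (mul_nonneg (hχ01 x).1 hc.le), mul_assoc]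
    have h5 : 0 ≤ χ x * (c * ‖V x‖) := mul_nonneg (hχ01 x).1 (by positivity)
    refine (Real.rpow_le_rpow (norm_nonneg _) h2 (by linarith)).trans ?_
    refine (add_rpow_le (by positivity) h5 (by linarith)).trans ?_
    refine mul_le_mul_of_nonneg_left (add_le_add ?_ ?_) (by positivity)
    · rw [Real.mul_rpow hε.le (norm_nonneg _)]
    · rw [Real.mul_rpow (hχ01 x).1 (by positivity), Real.mul_rpow hc.le (norm_nonneg _)]
      refine mul_le_mul_of_nonneg_right ?_ (by positivity)
      calc χ x ^ p ≤ χ x ^ (1 : ℝ) := Real.rpow_le_rpow_of_exponent_ge' (hχ01 x).1 (hχ01 x).2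
            zero_le_one hp.le
        _ = χ x := Real.rpow_one _
  have hεp : ε ^ p ≤ ε ^ (p - 1) :=
    Real.rpow_le_rpow_of_exponent_ge hε hε1 (by linarith)
  have hlast : m0 ≤ K * ε ^ (p - 1) := by
    calc m0 ≤ C2 * R ^ p * (2 ^ p * (ε ^ p * B + E2)) :=
          hl.trans (hfin.trans (mul_le_mul_of_nonneg_left hu (by positivity)))
      _ ≤ C2 * R ^ p * (2 ^ p * (ε ^ (p - 1) * B + K2 * ε ^ (p - 1))) := by
          refine mul_le_mul_of_nonneg_left (mul_le_mul_of_nonneg_left
            (add_le_add (mul_le_mul_of_nonneg_right hεp hB0) hE2le) (by positivity))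
            (by positivity)
      _ = (C2 * R ^ p * (2 ^ p * (B + K2))) * ε ^ (p - 1) := by ring
      _ ≤ K * ε ^ (p - 1) := by
          refine mul_le_mul_of_nonneg_right ?_ (by positivity)
          rw [hKdef]
          linarith
  linarith

end Pool.Agent.Lib.MP_abd978_an.H50
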