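import Pool.Agent.Lib.MP_abd978_an.H50.Common

/-!
# Project ABD: PNZ
-/

set_option autoImplicit false

open MeasureTheory Metric Set Filter Topology ContDiff
open scoped Gradient RealInnerProductSpace

namespace Pool.Agent.Lib.MP_abd978_an.H50

/-- a nonnegative integrable function whose integral is at most zero -/
theorem ae_zero {n : ℕ} {μ : Measure (E n)} {f : E n → ℝ} (hf : Integrable f μ)
    (h0 : ∀ x, 0 ≤ f x) (h : ∫ x, f x ∂μ ≤ 0) : ∀ᵐ x ∂μ, f x = 0 := by
  have h1 : ∫ x, f x ∂μ = 0 := le_antisymm h (integral_nonneg h0)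
  exact (integral_eq_zero_iff_of_nonneg h0 hf).1 h1

theorem eta_int {n : ℕ} {μ : Measure (E n)} {p : ℝ} (hp : 1 < p) {V : E n → E n}
    (hV : MemLp V (ENNReal.ofReal p) μ) {η : E n → ℝ} (hη : Continuous η)
    (hη1 : ∀ x, η x ∈ Icc (0 : ℝ) 1) (m : ℕ) :
    Integrable (fun x => η x ^ m * ‖V x‖ ^ p) μ := by
  have h1 := int_rpow hp hV
  refine h1.mono' (((hη.pow m).aestronglyMeasurable).mul h1.1) (Eventually.of_forall fun x => ?_)
  have h2 : 0 ≤ ‖V x‖ ^ p := by positivity
  have h3 : η x ^ m ≤ 1 := pow_le_one₀ (hη1 x).1 (hη1 x).2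
  have h4 : 0 ≤ η x ^ m := pow_nonneg (hη1 x).1 m
  rw [Real.norm_eq_abs, abs_of_nonneg (mul_nonneg h4 h2)]
  exact mul_le_of_le_one_left h2 h3

theorem pnz (hC : CutStatement) (hI : IntgStatement) (hP : PairStatement) (hS : Sob1Statement)
    (hCa : CaccStatement) : PnzStatement := by
  intro n p μ a α β y R y' κ v ρ _ hop hv hK hρ
  by_contra hcon
  push Not at hcon
  have hlf := hop.lf
  have hp := hop.hp
  obtain ⟨hκ, hKR, hv01, -, g, V, hg, hg01, ⟨ε, hε, hg1⟩, hH, hE⟩ := hv
  set D : Set (E n) := ball y R \ closedBall y' κ with hD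
  have hDo : IsOpen D := isOpen_ball.sdiff isClosed_closedBall
  have hgu : Test univ g := hg.mono (subset_univ _)
  obtain ⟨hvL, hVL⟩ := memLp_V hgu hH
  have hρ0 : 0 < ρ := by
    have : y' ∈ ball y ρ := hK (mem_closedBall_self hκ.le)
    exact dist_nonneg.trans_lt (mem_ball.1 this)
  have hR0 : 0 < R := hρ0.trans hρ
  -- radii
  set d : ℝ := (R - ρ) / 5 with hd
  have hd0 : 0 < d := by rw [hd]; linarith
  have hRd : R = ρ + 5 * d := by rw [hd]; ring
  -- V = 0 a.e. on the annulus
  obtain ⟨η, hη, hη01, hη1, hηs⟩ := annCut hC n y (s1 := ρ + d) (s2 := ρ + 2 * d)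
    (t1 := ρ + 4 * d - d / 4) (t2 := ρ + 4 * d) (by linarith) (by linarith) (by linarith)
    (by linarith)
  set D' : Set (E n) := ball y R \ closedBall y ρ with hD'
  have hD'o : IsOpen D' := isOpen_ball.sdiff isClosed_closedBall
  have hD'D : D' ⊆ D := fun x hx => ⟨hx.1, fun h => hx.2 (ball_subset_closedBall (hK h))⟩
  have hηD : Test D' η := by
    refine ⟨hη.1, hη.2.1, fun x hx => ?_⟩
    obtain ⟨h1, h2⟩ := hηs hx
    refine ⟨mem_ball.2 (by linarith), fun h => ?_⟩
    have := mem_closedBall.1 h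
    linarith
  have hbs : BSol μ p a D' v V 0 1 := bsol hop hv01 hgu hH hE hD'o hD'D
  obtain ⟨C1, hC1, hCa1⟩ := hCa n p μ a α β hop
  have hca := hCa1 D' v V 0 1 (fun t => t) η hbs ⟨univ, isOpen_univ, subset_univ _,
    contDiff_id.contDiffOn⟩ (fun t _ => by simp) hηD hη01
  have hV0 : ∀ᵐ x ∂μ, η x ^ ⌈p⌉₊ * ‖V x‖ ^ p = 0 := by
    refine ae_zero (eta_int hp hVL hη.1.continuous hη01 _) (fun x => ?_) ?_
    · exact mul_nonneg (pow_nonneg (hη01 x).1 _) (by positivity)
    · have h1 : ∫ x, |v x| ^ p * deriv (fun t : ℝ => t) (v x) ^ (1 - p) * ‖∇ η x‖ ^ p ∂μ = 0 := by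
        rw [← integral_zero (E n) ℝ (μ := μ)]
        refine integral_congr_ae (Eventually.of_forall fun x => ?_)
        show |v x| ^ p * deriv (fun t : ℝ => t) (v x) ^ (1 - p) * ‖∇ η x‖ ^ p = 0
        by_cases hx : x ∈ tsupport η
        · rw [hcon x (hηD.2.2 hx), abs_zero, Real.zero_rpow (by linarith), zero_mul, zero_mul]
        · rw [grad_eq_zero_of_notMem hx, norm_zero, Real.zero_rpow (by linarith), mul_zero]
      rw [h1, mul_zero] at hca
      refine le_trans (le_of_eq ?_) hca
      refine integral_congr_ae (Eventually.of_forall fun x => ?_)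
      show η x ^ ⌈p⌉₊ * ‖V x‖ ^ p = η x ^ ⌈p⌉₊ * (deriv (fun t : ℝ => t) (v x) * ‖V x‖ ^ p)
      simp
  -- the cutoff g'
  obtain ⟨Cc, -, hCc⟩ := hC n
  obtain ⟨g', hg', hg'01, hg'1, hg's, -⟩ := hCc y (ρ + 3 * d - d / 4) (ρ + 3 * d) (by linarith)
    (by linarith)
  have hT : Test D (fun x => g x - g' x) := by
    refine ⟨hg.1.sub hg'.1, hg.2.1.sub hg'.2.1, fun x hx => ⟨?_, fun hxK => ?_⟩⟩
    · have h1 : tsupport (fun x => g x - g' x) ⊆ tsupport g ∪ tsupport g' := by
        refine closure_minimal (fun z hz => ?_) ((isClosed_tsupport _).union (isClosed_tsupport _))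
        by_contra hzc
        rw [mem_union, not_or] at hzc
        exact hz (by
          show g z - g' z = 0
          rw [image_eq_zero_of_notMem_tsupport hzc.1, image_eq_zero_of_notMem_tsupport hzc.2,
            sub_zero])
      rcases h1 hx with h2 | h2
      · exact hg.2.2 h2
      · exact mem_ball.2 ((mem_closedBall.1 (hg's h2)).trans_lt (by linarith))
    · have hO : IsOpen (ball y ρ ∩ ball y' (κ + ε)) := isOpen_ball.inter isOpen_ball
      have hxO : x ∈ ball y ρ ∩ ball y' (κ + ε) :=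
        ⟨hK hxK, mem_ball.2 ((mem_closedBall.1 hxK).trans_lt (by linarith))⟩
      obtain ⟨z, hz1, hz2⟩ := mem_closure_iff.1 hx _ hO hxO
      refine hz2 ?_
      show g z - g' z = 0
      rw [hg1 z (ball_subset_closedBall hz1.2),
        hg'1 z (mem_closedBall.2 ((mem_ball.1 hz1.1).le.trans (by linarith))), sub_self]
  have hH' : H0 μ p D (fun x => v x - g' x) (fun x => V x - ∇ g' x) := by
    have h1 := H0.add hp hH (hT.h0 (μ := μ) (p := p))
    have h2 : (fun x => v x - g x + (g x - g' x)) = fun x => v x - g' x := by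
      funext x
      ring
    have h3 : (fun x => V x - ∇ g x + ∇ (fun x => g x - g' x) x) = fun x => V x - ∇ g' x := by
      funext x
      rw [grad_sub (hg.1.differentiable (by simp) x) (hg'.1.differentiable (by simp) x)]
      abel
    rwa [h2, h3] at h1
  have hpair := hP n p μ a α β D V _ _ hop hDo (hVL.mono_measure Measure.restrict_le_self) hE hH'
  have hint : Integrable (fun x => ⟪a x (V x), V x⟫) μ :=
    (hI n p μ μ a α β V V hop hVL hVL).1
  have hell : ∀ x, 0 ≤ ⟪a x (V x), V x⟫ := fun x =>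
    le_trans (mul_nonneg hop.hα.le (by positivity)) (hop.ell x (V x))
  have hz : ∀ᵐ x ∂μ, ⟪a x (V x), V x⟫ = 0 := by
    refine ae_zero hint hell (le_of_eq ?_)
    rw [← hpair]
    refine integral_congr_ae ?_
    filter_upwards [hV0] with x hx
    have hg0 : ⟪a x (V x), ∇ g' x⟫ = 0 := by
      by_cases h1 : dist x y < ρ + 3 * d - d / 4
      · -- g' = 1 near x
        have h2 : ∇ g' x = 0 := by
          have h3 : (fun _ : E n => (1 : ℝ)) =ᶠ[𝓝 x] g' := by
            filter_upwards [isOpen_ball.mem_nhds (mem_ball.2 h1)] with z hz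
            exact (hg'1 z (ball_subset_closedBall hz)).symm
          rw [grad_eq, ← h3.fderiv_eq]
          simp
        rw [h2, inner_zero_right]
      · by_cases h2 : dist x y ≤ ρ + 3 * d
        · have h3 : η x = 1 := hη1 x (by linarith [not_lt.1 h1]) (by linarith)
          rw [h3, one_pow, one_mul] at hx
          have h4 : V x = 0 := by
            have := (Real.rpow_eq_zero (norm_nonneg (V x)) (by linarith)).1 hx
            exact norm_eq_zero.1 this
          rw [h4, op_zero hop, inner_zero_left]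
        · have h3 : ∇ g' x = 0 := grad_eq_zero_of_notMem fun h => h2 (mem_closedBall.1 (hg's h))
          rw [h3, inner_zero_right]
    show ⟪a x (V x), V x⟫ = ⟪a x (V x), V x - ∇ g' x⟫
    rw [inner_sub_right, hg0, sub_zero]
  have hVz : ∀ᵐ x ∂μ, V x = 0 := by
    filter_upwards [hz] with x hx
    have h1 := hop.ell x (V x)
    rw [hx] at h1
    have h2 : ‖V x‖ ^ p ≤ 0 := by
      by_contra hc
      have := mul_pos hop.hα (not_le.1 hc)
      linarith
    have h3 : ‖V x‖ ^ p = 0 := le_antisymm h2 (by positivity)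
    exact norm_eq_zero.1 ((Real.rpow_eq_zero (norm_nonneg (V x)) (by linarith)).1 h3)
  have hHv : H0 μ p (ball y R) v V := by
    have h1 := H0.add hp (hH.mono sdiff_subset) (hg.h0 (μ := μ) (p := p))
    have h2 : (fun x => v x - g x + g x) = v := by
      funext x
      ring
    have h3 : (fun x => V x - ∇ g x + ∇ g x) = V := by
      funext x
      abel
    rwa [h2, h3] at h1
  obtain ⟨C2, -, hS2⟩ := hS n p μ hop.toGeo
  have h1 := hS2 y R v V hR0 hHv
  have h2 : ∫ x, ‖V x‖ ^ p ∂μ = 0 := by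
    rw [← integral_zero (E n) ℝ (μ := μ)]
    refine integral_congr_ae ?_
    filter_upwards [hVz] with x hx
    rw [hx, norm_zero, Real.zero_rpow (by linarith)]
  rw [h2, mul_zero] at h1
  have h3 : ∀ᵐ x ∂μ, |v x| ^ p = 0 :=
    ae_zero (int_rpow hp hvL) (fun x => by positivity) h1
  have h4 := (H0.ae_eq_zero hp hDo.measurableSet hH).1
  have h5 : ∀ᵐ x ∂(μ.restrict (ball y' κ)), False := by
    have h6 : ∀ᵐ x ∂(μ.restrict (ball y' κ)), v x - g x = 0 :=
      ae_mono (Measure.restrict_mono (fun x hx => fun hx' => hx'.2 (ball_subset_closedBall hx))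
        le_rfl) h4
    have h7 : ∀ᵐ x ∂(μ.restrict (ball y' κ)), |v x| ^ p = 0 :=
      ae_mono Measure.restrict_le_self h3
    have h8 : ∀ᵐ x ∂(μ.restrict (ball y' κ)), x ∈ ball y' κ := ae_restrict_mem measurableSet_ball
    filter_upwards [h6, h7, h8] with x a1 a2 a3
    rw [hg1 x (mem_closedBall.2 ((mem_ball.1 a3).le.trans (by linarith)))] at a1
    have a4 : v x = 1 := by linarith
    rw [a4, abs_one, Real.one_rpow] at a2
    exact one_ne_zero a2
  have h6 := hop.pos y' κ hκ
  rw [Filter.eventually_false_iff_eq_bot, ae_eq_bot, Measure.restrict_eq_zero] at h5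
  rw [Measure.real, h5] at h6
  simp at h6

end Pool.Agent.Lib.MP_abd978_an.H50
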