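import Pool.Agent.Lib.MP_abd978_an.Interfaces

/-!
# Project ABD: auxiliary lemmas for PNZ and PNC
-/

set_option autoImplicit false

open MeasureTheory Metric Set Filter Topology ContDiff
open scoped Gradient RealInnerProductSpace

namespace Pool.Agent.Lib.MP_abd978_an.H50

variable {n : ℕ} {μ : Measure (E n)} {p α β : ℝ} {a : E n → E n → E n}

theorem op_zero (hop : Op p μ a α β) (x : E n) : a x 0 = 0 := by
  have h := hop.bdd x 0
  have hp := hop.hp
  rw [norm_zero, Real.zero_rpow (by linarith), mul_zero] at h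
  exact norm_le_zero_iff.1 h

theorem memLp_V [IsLocallyFiniteMeasure μ] {D : Set (E n)} {v g : E n → ℝ}
    {V : E n → E n} (hg : Test univ g)
    (h : H0 μ p D (fun x => v x - g x) (fun x => V x - ∇ g x)) :
    MemLp v (ENNReal.ofReal p) μ ∧ MemLp V (ENNReal.ofReal p) μ := by
  have h1 := H0.isSob hg h univ
  rw [IsSob, Measure.restrict_univ] at h1
  exact ⟨h1.1, h1.2.1⟩

theorem int_rpow (hp : 1 < p) {F : Type} [NormedAddCommGroup F] {V : E n → F}
    (h : MemLp V (ENNReal.ofReal p) μ) : Integrable (fun x => ‖V x‖ ^ p) μ := by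
  have h1 := h.integrable_norm_rpow (by
    have := one_le_ofReal hp
    intro h0
    rw [h0] at this
    simp at this) ENNReal.ofReal_ne_top
  rwa [ENNReal.toReal_ofReal (by linarith)] at h1

theorem bsol (hop : Op p μ a α β) {D D' : Set (E n)} {v g : E n → ℝ}
    {V : E n → E n} (hv : ∀ x, v x ∈ Icc (0 : ℝ) 1) (hg : Test univ g)
    (h : H0 μ p D (fun x => v x - g x) (fun x => V x - ∇ g x)) (he : Eqn μ a D V)
    (hD' : IsOpen D') (hsub : D' ⊆ D) : BSol μ p a D' v V 0 1 := by
  haveI := hop.lf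
  exact ⟨hD', H0.isSob hg h D', hv, he.mono hsub⟩

theorem annCut (hC : CutStatement) (n : ℕ) (y : E n) {s1 s2 t1 t2 : ℝ} (h0 : 0 < s1)
    (h1 : s1 < s2) (h2 : s2 < t1) (h3 : t1 < t2) :
    ∃ η : E n → ℝ, Test univ η ∧ (∀ x, η x ∈ Icc (0 : ℝ) 1) ∧
      (∀ x, s2 < dist x y → dist x y ≤ t1 → η x = 1) ∧
      tsupport η ⊆ {x | s1 ≤ dist x y ∧ dist x y ≤ t2} := by
  obtain ⟨C, -, hC⟩ := hC n
  obtain ⟨η1, a1, b1, c1, d1, -⟩ := hC y t1 t2 (by linarith) h3
  obtain ⟨η2, a2, b2, c2, d2, -⟩ := hC y s1 s2 h0 h1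
  refine ⟨fun x => η1 x * (1 - η2 x), ⟨a1.1.mul (contDiff_const.sub a2.1), ?_, subset_univ _⟩,
    fun x => ⟨?_, ?_⟩, fun x hx hx' => ?_, ?_⟩
  · exact a1.2.1.mul_right
  · exact mul_nonneg (b1 x).1 (by linarith [(b2 x).2])
  · exact mul_le_one₀ (b1 x).2 (by linarith [(b2 x).2]) (by linarith [(b2 x).1])
  · have e1 : η1 x = 1 := c1 x (mem_closedBall.2 hx')
    have e2 : η2 x = 0 := image_eq_zero_of_notMem_tsupport fun hx2 => by
      have := mem_closedBall.1 (d2 hx2)
      linarith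
    show η1 x * (1 - η2 x) = 1
    rw [e1, e2]
    norm_num
  · intro x hx
    have e1 : x ∈ tsupport η1 := tsupport_mul_subset_left hx
    have e2 : x ∈ tsupport (fun x => 1 - η2 x) := tsupport_mul_subset_right hx
    refine ⟨?_, mem_closedBall.1 (d1 e1)⟩
    have hcl : IsClosed {x : E n | s1 ≤ dist x y} :=
      isClosed_le continuous_const (continuous_id.dist continuous_const)
    have hsub : tsupport (fun x => 1 - η2 x) ⊆ {x : E n | s1 ≤ dist x y} := by
      refine closure_minimal (fun z hz => ?_) hcl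
      by_contra hcon
      have hz1 : dist z y < s1 := not_le.1 hcon
      exact hz (by
        show 1 - η2 z = 0
        rw [c2 z (mem_closedBall.2 hz1.le)]
        norm_num)
    exact hsub e2

end Pool.Agent.Lib.MP_abd978_an.H50
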